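import Pool.Agent.W70.HR.Stm

/-! HR-SM: second moments of the weights `WW`. -/

set_option autoImplicit false

open Finset

namespace Pool.W335.HR

open Pool.Agent.H361R2.PP Pool.Agent.W70.HR
open Pool.Agent.H410R2.AC (wt GG cfg term WW pos Inj coef)

variable {t : ℕ}

open Classical in
/-- the family at the position `a` -/
noncomputable def phi (S : Fin t → Finset (Finset ℕ)) (ψ : ℕ → Finset (Finset ℕ))
    (σ : Fin t → Option ℕ) (a : ℕ) : Finset (Finset ℕ) :=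
  if h : ∃ τ, σ τ = some a then S h.choose else ψ a

lemma phi_some {S : Fin t → Finset (Finset ℕ)} {ψ : ℕ → Finset (Finset ℕ)}
    {σ : Fin t → Option ℕ} (hi : Inj σ) {τ : Fin t} {a : ℕ} (h : σ τ = some a) :
    phi S ψ σ a = S τ := by
  have h' : ∃ τ, σ τ = some a := ⟨τ, h⟩
  unfold phi
  rw [dif_pos h']
  congr 1
  exact hi _ _ a h'.choose_spec h

lemma phi_none {S : Fin t → Finset (Finset ℕ)} {ψ : ℕ → Finset (Finset ℕ)}
    {σ : Fin t → Option ℕ} {a : ℕ} (h : ¬ ∃ τ, σ τ = some a) : phi S ψ σ a = ψ a := by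
  unfold phi
  rw [dif_neg h]

lemma mem_cfg {B : Finset ℕ} {σ : Fin t → Option ℕ} (h : σ ∈ cfg t B) :
    (∀ τ a, σ τ = some a → a ∈ B) ∧ Inj σ := by
  classical
  unfold Pool.Agent.H410R2.AC.cfg at h
  rw [Finset.mem_filter, Fintype.mem_piFinset] at h
  refine ⟨fun τ a ha => ?_, h.2⟩
  have := h.1 τ
  rw [ha] at this
  simpa using this

lemma card_cfg (B : Finset ℕ) : (cfg t B).card ≤ (B.card + 1) ^ t := by
  classical
  unfold Pool.Agent.H410R2.AC.cfg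
  refine (Finset.card_filter_le _ _).trans ?_
  rw [Fintype.card_piFinset]
  simp

lemma term_mul (x y : Fin t → ℕ → ℝ) (σ : Fin t → Option ℕ) :
    term x σ * term y σ = term (fun τ a => x τ a * y τ a) σ := by
  unfold term
  rw [← Finset.prod_mul_distrib]
  refine Finset.prod_congr rfl fun τ _ => ?_
  cases σ τ <;> simp

lemma prod_phi {B U : Finset ℕ} {S : Fin t → Finset (Finset ℕ)} {ψ : ℕ → Finset (Finset ℕ)}
    {σ : Fin t → Option ℕ} (f : Finset (Finset ℕ) → ℕ → ℝ) (hf : ∀ a, f {∅} a = 1)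
    (hσ : σ ∈ cfg t B) (hBU : B ⊆ U) (hψ : ∀ a ∈ B, ψ a = {∅}) :
    ∏ a ∈ U, f (phi S ψ σ a) a = (∏ a ∈ U, f (ψ a) a) * term (fun τ a => f (S τ) a) σ := by
  classical
  obtain ⟨hm, hi⟩ := mem_cfg hσ
  have h1 : ∀ a ∈ U, f (phi S ψ σ a) a =
      f (ψ a) a * ∏ τ, (if σ τ = some a then f (S τ) a else 1) := by
    intro a _
    by_cases h : ∃ τ, σ τ = some a
    · obtain ⟨τ0, h0⟩ := h
      rw [phi_some hi h0, hψ a (hm _ _ h0), hf, one_mul, Finset.prod_eq_single τ0]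
      · rw [if_pos h0]
      · intro τ _ hne
        rw [if_neg]
        intro h'
        exact hne (hi _ _ a h' h0)
      · intro h'; exact absurd (Finset.mem_univ _) h'
    · rw [phi_none h]
      push Not at h
      rw [Finset.prod_eq_one (fun τ _ => if_neg (h τ)), mul_one]
  have h2 : term (fun τ a => f (S τ) a) σ =
      ∏ τ, ∏ a ∈ U, (if σ τ = some a then f (S τ) a else 1) := by
    unfold term
    refine Finset.prod_congr rfl fun τ _ => ?_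
    cases h : σ τ with
    | none => simp
    | some a0 =>
      have ha0 : a0 ∈ U := hBU (hm _ _ h)
      simp only [Option.some.injEq]
      rw [Finset.prod_eq_single_of_mem a0 ha0]
      · simp
      · intro a _ hne
        rw [if_neg (fun h => hne h.symm)]
  rw [Finset.prod_congr rfl h1, Finset.prod_mul_distrib, h2, Finset.prod_comm]

/-- the coefficients of the configurations -/
noncomputable def ef (γ : ℝ) (β : Fin t → ℝ) (S : Fin t → Finset (Finset ℕ))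
    (σ : Fin t → Option ℕ) : ℝ := term (fun τ _ => γ * (β τ / GG (S τ))) σ

lemma term_xh (γ : ℝ) (β : Fin t → ℝ) (S : Fin t → Finset (Finset ℕ)) (n : ℕ)
    (σ : Fin t → Option ℕ) :
    term (xh γ β S n) σ = ef γ β S σ * term (fun τ a => FS (S τ) a n) σ := by
  unfold ef
  rw [term_mul]
  congr 1
  funext τ a
  unfold xh
  ring

lemma term_qh (γ : ℝ) (β : Fin t → ℝ) (S : Fin t → Finset (Finset ℕ)) (hG : ∀ τ, 1 ≤ GG (S τ))
    (σ : Fin t → Option ℕ) :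
    term (qh γ β S) σ = ef γ β S σ * ef γ β S σ * term (fun τ _ => GG (S τ)) σ := by
  unfold ef
  rw [term_mul, term_mul]
  congr 1
  funext τ a
  unfold qh
  have : GG (S τ) ≠ 0 := by have := hG τ; positivity
  field_simp

lemma ef_bound {γ : ℝ} (hγ : 0 ≤ γ) {β : Fin t → ℝ} (hβ : ∀ τ, 0 < β τ) (hβ1 : ∑ τ, β τ = 1)
    {S : Fin t → Finset (Finset ℕ)} (hG : ∀ τ, 1 ≤ GG (S τ)) (σ : Fin t → Option ℕ) :
    |ef γ β S σ| ≤ (1 + γ) ^ t := by
  unfold ef term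
  rw [Finset.abs_prod]
  have : ∀ τ ∈ (univ : Finset (Fin t)), |(match σ τ with
      | none => (1 : ℝ)
      | some a => (fun (τ : Fin t) (_ : ℕ) => γ * (β τ / GG (S τ))) τ a)| ≤ 1 + γ := by
    intro τ _
    cases σ τ with
    | none => simp [hγ]
    | some a =>
      simp only
      have h1 : β τ ≤ 1 := by
        rw [← hβ1]
        exact Finset.single_le_sum (fun i _ => (hβ i).le) (Finset.mem_univ τ)
      have h2 := hG τ
      have h3 := hβ τ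
      have h4 : β τ / GG (S τ) ≤ 1 := by
        rw [div_le_one (by linarith)]; linarith
      have h5 : 0 ≤ β τ / GG (S τ) := by positivity
      rw [abs_of_nonneg (by positivity)]
      nlinarith
  refine (Finset.prod_le_prod (fun _ _ => abs_nonneg _) this).trans ?_
  simp

/-- the abstract second moment -/
lemma moment {N : ℕ} {B U : Finset ℕ} (hBU : B ⊆ U) (hU : U.card ≤ N)
    {S : Fin t → Finset (Finset ℕ)} (hG : ∀ τ, 1 ≤ GG (S τ)) {β : Fin t → ℝ}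
    (hβ : ∀ τ, 0 < β τ) (hβ1 : ∑ τ, β τ = 1) {γ : ℝ} (hγ : 0 ≤ γ)
    {c : (Fin t → Option ℕ) → ℝ} (hc : ∀ σ, |c σ| ≤ (1 + γ) ^ 2)
    {ψ : ℕ → Finset (Finset ℕ)} (hψ : ∀ a ∈ B, ψ a = {∅}) (T : Finset ℕ) (w : ℕ → ℝ) (M e : ℝ)
    (hcorr : ∀ σ ∈ cfg t B, ∀ σ' ∈ cfg t B,
      |∑ n ∈ T, w n * ((∏ a ∈ U, FS (phi S ψ σ a) a n) * ∏ a ∈ U, FS (phi S ψ σ' a) a n) -
        (if σ = σ' then M * ∏ a ∈ U, GG (phi S ψ σ a) else 0)| ≤ e) :
    |∑ n ∈ T, w n * ((∏ a ∈ U, FS (ψ a) a n) * WW B c (xh γ β S n)) ^ 2 -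
      M * ((∏ a ∈ U, GG (ψ a)) * ∑ σ ∈ cfg t B, c σ ^ 2 * term (qh γ β S) σ)| ≤
      ((N : ℝ) + 1) ^ (2 * t) * (1 + γ) ^ (2 * t + 4) * e := by
  classical
  set E := ef γ β S with hE
  have hF1 : ∀ n a, FS {∅} a n = 1 := by
    intro n a
    unfold FS wt
    simp
  have hG1 : GG {∅} = 1 := by
    unfold GG wt
    simp
  have e1 : ∀ n, (∏ a ∈ U, FS (ψ a) a n) * WW B c (xh γ β S n) =
      ∑ σ ∈ cfg t B, (c σ * E σ) * ∏ a ∈ U, FS (phi S ψ σ a) a n := by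
    intro n
    unfold WW
    rw [Finset.mul_sum]
    refine Finset.sum_congr rfl fun σ hσ => ?_
    rw [prod_phi (fun F a => FS F a n) (fun a => hF1 n a) hσ hBU hψ, term_xh]
    ring
  have e2 : ∑ n ∈ T, w n * ((∏ a ∈ U, FS (ψ a) a n) * WW B c (xh γ β S n)) ^ 2 =
      ∑ σ ∈ cfg t B, ∑ σ' ∈ cfg t B, (c σ * E σ) * (c σ' * E σ') *
        ∑ n ∈ T, w n * ((∏ a ∈ U, FS (phi S ψ σ a) a n) * ∏ a ∈ U, FS (phi S ψ σ' a) a n) := by
    have : ∀ n ∈ T, w n * ((∏ a ∈ U, FS (ψ a) a n) * WW B c (xh γ β S n)) ^ 2 =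
        ∑ σ ∈ cfg t B, ∑ σ' ∈ cfg t B, (c σ * E σ) * (c σ' * E σ') *
          (w n * ((∏ a ∈ U, FS (phi S ψ σ a) a n) * ∏ a ∈ U, FS (phi S ψ σ' a) a n)) := by
      intro n _
      rw [e1, sq, Finset.sum_mul_sum, Finset.mul_sum]
      refine Finset.sum_congr rfl fun σ _ => ?_
      rw [Finset.mul_sum]
      refine Finset.sum_congr rfl fun σ' _ => ?_
      ring
    rw [Finset.sum_congr rfl this, Finset.sum_comm]
    refine Finset.sum_congr rfl fun σ _ => ?_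
    rw [Finset.sum_comm]
    refine Finset.sum_congr rfl fun σ' _ => ?_
    rw [Finset.mul_sum]
  have e3 : M * ((∏ a ∈ U, GG (ψ a)) * ∑ σ ∈ cfg t B, c σ ^ 2 * term (qh γ β S) σ) =
      ∑ σ ∈ cfg t B, ∑ σ' ∈ cfg t B, (c σ * E σ) * (c σ' * E σ') *
        (if σ = σ' then M * ∏ a ∈ U, GG (phi S ψ σ a) else 0) := by
    rw [Finset.mul_sum, Finset.mul_sum]
    refine Finset.sum_congr rfl fun σ hσ => ?_
    rw [Finset.sum_eq_single_of_mem σ hσ]
    · rw [if_pos rfl, prod_phi (fun F _ => GG F) (fun _ => hG1) hσ hBU hψ, term_qh _ _ _ hG]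
      ring
    · intro σ' _ hne
      rw [if_neg (fun h => hne h.symm), mul_zero]
  rw [e2, e3, ← Finset.sum_sub_distrib]
  simp only [← Finset.sum_sub_distrib, ← mul_sub]
  have hEc : ∀ σ, |c σ * E σ| ≤ (1 + γ) ^ (t + 2) := by
    intro σ
    rw [abs_mul, pow_add, mul_comm]
    exact mul_le_mul (ef_bound hγ hβ hβ1 hG σ) (hc σ) (abs_nonneg _) (by positivity)
  have he : (cfg t B).Nonempty → 0 ≤ e := fun ⟨σ, hσ⟩ =>
    (abs_nonneg _).trans (hcorr σ hσ σ hσ)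
  have hone : (1 : ℝ) ≤ 1 + γ := by linarith
  have hterm : ∀ σ ∈ cfg t B, |∑ σ' ∈ cfg t B, (c σ * E σ) * (c σ' * E σ') *
      (∑ n ∈ T, w n * ((∏ a ∈ U, FS (phi S ψ σ a) a n) * ∏ a ∈ U, FS (phi S ψ σ' a) a n) -
        (if σ = σ' then M * ∏ a ∈ U, GG (phi S ψ σ a) else 0))| ≤
      (cfg t B).card * ((1 + γ) ^ (2 * t + 4) * e) := by
    intro σ hσ
    refine (Finset.abs_sum_le_sum_abs _ _).trans ?_
    rw [← nsmul_eq_mul]
    refine Finset.sum_le_card_nsmul _ _ _ fun σ' hσ' => ?_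
    rw [abs_mul, abs_mul]
    have h0 := he ⟨σ, hσ⟩
    calc |c σ * E σ| * |c σ' * E σ'| * _ ≤ (1 + γ) ^ (t + 2) * (1 + γ) ^ (t + 2) * e := by
          refine mul_le_mul (mul_le_mul (hEc σ) (hEc σ') (abs_nonneg _) (by positivity))
            (hcorr σ hσ σ' hσ') (abs_nonneg _) (by positivity)
      _ = (1 + γ) ^ (2 * t + 4) * e := by ring
  refine (Finset.abs_sum_le_sum_abs _ _).trans ?_
  refine (Finset.sum_le_card_nsmul _ _ _ hterm).trans ?_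
  rw [nsmul_eq_mul]
  rcases (cfg t B).eq_empty_or_nonempty with h | h
  · exfalso
    have : (fun _ => none : Fin t → Option ℕ) ∈ cfg t B := by
      unfold Pool.Agent.H410R2.AC.cfg
      rw [Finset.mem_filter, Fintype.mem_piFinset]
      exact ⟨fun τ => by simp, fun τ τ' a h => by simp at h⟩
    rw [h] at this
    simp at this
  · have h0 := he h
    have hcard : ((cfg t B).card : ℝ) ≤ ((N : ℝ) + 1) ^ t := by
      have h1 := (card_cfg (t := t) B).trans (Nat.pow_le_pow_left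
        (Nat.succ_le_succ ((Finset.card_le_card hBU).trans hU)) t)
      exact_mod_cast h1
    have hp : (0 : ℝ) ≤ (1 + γ) ^ (2 * t + 4) * e := by positivity
    calc ((cfg t B).card : ℝ) * ((cfg t B).card * ((1 + γ) ^ (2 * t + 4) * e))
        ≤ ((N : ℝ) + 1) ^ t * (((N : ℝ) + 1) ^ t * ((1 + γ) ^ (2 * t + 4) * e)) := by gcongr
      _ = ((N : ℝ) + 1) ^ (2 * t) * (1 + γ) ^ (2 * t + 4) * e := by ring

lemma phi_disj {B : Finset ℕ} {S : Fin t → Finset (Finset ℕ)}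
    (h0 : ∀ τ, ∅ ∉ S τ) (hd : ∀ τ τ', τ ≠ τ' → Disjoint (S τ) (S τ')) (hG : ∀ τ, 1 ≤ GG (S τ))
    {ψ : ℕ → Finset (Finset ℕ)} (hψ : ∀ a ∈ B, ψ a = {∅}) {σ σ' : Fin t → Option ℕ}
    (hσ : σ ∈ cfg t B) (hσ' : σ' ∈ cfg t B) {τ : Fin t} {a : ℕ} (h1 : σ τ = some a)
    (h2 : σ' τ ≠ some a) : Disjoint (phi S ψ σ a) (phi S ψ σ' a) ∧
      phi S ψ σ a ≠ phi S ψ σ' a := by
  obtain ⟨hm, hi⟩ := mem_cfg hσ
  obtain ⟨hm', hi'⟩ := mem_cfg hσ'
  have hne : S τ ≠ ∅ := by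
    intro h
    have := hG τ
    rw [h] at this
    simp [GG] at this
    linarith
  have key : Disjoint (phi S ψ σ a) (phi S ψ σ' a) := by
    rw [phi_some hi h1]
    by_cases h : ∃ τ', σ' τ' = some a
    · obtain ⟨τ', h3⟩ := h
      rw [phi_some hi' h3]
      apply hd
      rintro rfl
      exact h2 h3
    · rw [phi_none h, hψ a (hm _ _ h1), Finset.disjoint_singleton_right]
      exact h0 τ
  refine ⟨key, fun h => ?_⟩
  rw [← h, disjoint_self, phi_some hi h1] at key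
  exact hne key

/-- the sizes -/
noncomputable def uu (u : Fin t → ℝ) (v : ℕ → ℝ) (σ : Fin t → Option ℕ) (a : ℕ) : ℝ :=
  v a + ∑ τ, (if σ τ = some a then u τ else 0)

lemma uu_sum {U : Finset ℕ} {u : Fin t → ℝ} (hu : ∀ τ, 0 < u τ) (v : ℕ → ℝ)
    (σ : Fin t → Option ℕ) : ∑ a ∈ U, uu u v σ a ≤ ∑ a ∈ U, v a + ∑ τ, u τ := by
  unfold uu
  rw [Finset.sum_add_distrib, Finset.sum_comm]
  gcongr with τ _
  cases h : σ τ with
  | none => simp [(hu τ).le]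
  | some a0 =>
    simp only [Option.some.injEq]
    rw [Finset.sum_ite_eq]
    split_ifs
    · exact le_rfl
    · exact (hu τ).le

lemma uu_fam {δ : ℝ} {X : ℕ} {B U : Finset ℕ} {S : Fin t → Finset (Finset ℕ)} {u : Fin t → ℝ}
    (hu : ∀ τ, 0 < u τ) (hS : ∀ τ, Fam δ X (u τ) (S τ)) {ψ : ℕ → Finset (Finset ℕ)} {v : ℕ → ℝ}
    (hv : ∀ a ∈ U, 0 ≤ v a ∧ Fam δ X (v a) (ψ a)) {σ : Fin t → Option ℕ} (hσ : σ ∈ cfg t B) :
    ∀ a ∈ U, 0 ≤ uu u v σ a ∧ Fam δ X (uu u v σ a) (phi S ψ σ a) := by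
  intro a ha
  obtain ⟨hm, hi⟩ := mem_cfg hσ
  have hlog : 0 ≤ Real.log X := Real.log_natCast_nonneg X
  have hs : 0 ≤ ∑ τ, (if σ τ = some a then u τ else 0) :=
    Finset.sum_nonneg fun τ _ => by
      split_ifs
      · exact (hu τ).le
      · exact le_rfl
  refine ⟨add_nonneg (hv a ha).1 hs, ?_⟩
  by_cases h : ∃ τ, σ τ = some a
  · obtain ⟨τ, h1⟩ := h
    rw [phi_some hi h1]
    intro R hR
    refine ⟨(hS τ R hR).1, (hS τ R hR).2.trans (mul_le_mul_of_nonneg_right ?_ hlog)⟩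
    have h2 : (if σ τ = some a then u τ else 0) ≤ ∑ τ, (if σ τ = some a then u τ else 0) :=
      Finset.single_le_sum (f := fun τ => if σ τ = some a then u τ else 0) (fun τ _ => by
        split_ifs
        · exact (hu τ).le
        · exact le_rfl) (Finset.mem_univ τ)
    rw [if_pos h1] at h2
    unfold uu
    linarith [(hv a ha).1]
  · rw [phi_none h]
    intro R hR
    refine ⟨((hv a ha).2 R hR).1, ((hv a ha).2 R hR).2.trans
      (mul_le_mul_of_nonneg_right ?_ hlog)⟩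
    unfold uu
    linarith

open Classical in
lemma corr {δ : ℝ} {X : ℕ} {θ : ℝ} {B U : Finset ℕ} (hBU : B ⊆ U)
    {S : Fin t → Finset (Finset ℕ)}
    {u : Fin t → ℝ} (hu : ∀ τ, 0 < u τ) (hθ : ∑ τ, u τ ≤ θ / 2)
    (hS : ∀ τ, Fam δ X (u τ) (S τ)) (h0 : ∀ τ, ∅ ∉ S τ)
    (hd : ∀ τ τ', τ ≠ τ' → Disjoint (S τ) (S τ')) (hG : ∀ τ, 1 ≤ GG (S τ))
    {ψ : ℕ → Finset (Finset ℕ)} (hψ : ∀ a ∈ B, ψ a = {∅}) {v : ℕ → ℝ}
    (hv : ∀ a ∈ U, 0 ≤ v a ∧ Fam δ X (v a) (ψ a)) (hθ0 : 0 < θ)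
    (hvs : ∑ a ∈ U, v a ≤ 1 / 4 - 2 * θ)
    (T : Finset ℕ) (w : ℕ → ℝ) (M e : ℝ)
    (H : ∀ (F F' : ℕ → Finset (Finset ℕ)) (u u' : ℕ → ℝ),
      (∀ a ∈ U, 0 ≤ u a ∧ Fam δ X (u a) (F a)) → (∀ a ∈ U, 0 ≤ u' a ∧ Fam δ X (u' a) (F' a)) →
      ∑ a ∈ U, (u a + u' a) ≤ 1 / 2 - 2 * θ →
      ((∀ a ∈ U, F a = F' a) ∨ ∃ a ∈ U, Disjoint (F a) (F' a)) →
      |∑ n ∈ T, w n * ((∏ a ∈ U, FS (F a) a n) * ∏ a ∈ U, FS (F' a) a n) -
        (if ∀ a ∈ U, F a = F' a then M * ∏ a ∈ U, GG (F a) else 0)| ≤ e) :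
    ∀ σ ∈ cfg t B, ∀ σ' ∈ cfg t B,
      |∑ n ∈ T, w n * ((∏ a ∈ U, FS (phi S ψ σ a) a n) * ∏ a ∈ U, FS (phi S ψ σ' a) a n) -
        (if σ = σ' then M * ∏ a ∈ U, GG (phi S ψ σ a) else 0)| ≤ e := by
  intro σ hσ σ' hσ'
  have hsum : ∑ a ∈ U, (uu u v σ a + uu u v σ' a) ≤ 1 / 2 - 2 * θ := by
    rw [Finset.sum_add_distrib]
    have h1 := uu_sum (U := U) hu v σ
    have h2 := uu_sum (U := U) hu v σ'
    linarith
  have hf := uu_fam (B := B) hu hS hv hσ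
  have hf' := uu_fam (B := B) hu hS hv hσ'
  by_cases h : σ = σ'
  · have h1 := H _ _ _ _ hf hf' hsum (Or.inl (fun a _ => by rw [h]))
    rw [if_pos (fun a _ => by rw [h])] at h1
    rw [if_pos h]
    exact h1
  · obtain ⟨a, ha, h3, h4⟩ : ∃ a ∈ U, Disjoint (phi S ψ σ a) (phi S ψ σ' a) ∧
        phi S ψ σ a ≠ phi S ψ σ' a := by
      obtain ⟨τ, hτ⟩ : ∃ τ, σ τ ≠ σ' τ := by
        by_contra hcon
        push Not at hcon
        exact h (funext hcon)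
      cases h1 : σ τ with
      | some a =>
        exact ⟨a, hBU ((mem_cfg hσ).1 _ _ h1), phi_disj h0 hd hG hψ hσ hσ' h1
          (fun h2 => hτ (h1.trans h2.symm))⟩
      | none =>
        cases h2 : σ' τ with
        | some a =>
          have := phi_disj h0 hd hG hψ hσ' hσ h2 (by rw [h1]; simp)
          exact ⟨a, hBU ((mem_cfg hσ').1 _ _ h2), this.1.symm, this.2.symm⟩
        | none => exact absurd (h1.trans h2.symm) hτ
    have h1 := H _ _ _ _ hf hf' hsum (Or.inr ⟨a, ha, h3⟩)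
    rw [if_neg (fun h5 => h4 (h5 a ha))] at h1
    rw [if_neg h]
    exact h1

theorem sm : S_ML → S_SM := by
  classical
  intro hML N m t u β Λ θ s huβ hβ1 hu hΛ hθ0 hθ1 hs
  have hN : (0 : ℝ) < ((N : ℝ) + 1) ^ (2 * t) := by positivity
  obtain ⟨δ₀, hδ₀, hML⟩ := hML N (m * (2 * t + 4)) Λ θ (s / ((N : ℝ) + 1) ^ (2 * t)) hΛ hθ0 hθ1
    (div_pos hs hN)
  refine ⟨δ₀, hδ₀, fun δ hδ hδ' => ?_⟩
  obtain ⟨X₀, hX₀⟩ := hML δ hδ hδ'
  refine ⟨max X₀ 1, fun X hX b hb S hS h0 hd hG γ hγ hγm U hU hUN B hBU c hc => ?_⟩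
  have hX1 : 1 ≤ X := (le_max_right _ _).trans hX
  have key := hX₀ X ((le_max_left _ _).trans hX) b hb U hU hUN
  have huτ : ∀ τ, 0 < u τ := fun τ => (huβ τ).1
  have hβτ : ∀ τ, 0 < β τ := fun τ => (huβ τ).2
  -- the error
  have herr : ∀ M : ℝ, 0 ≤ s / ((N : ℝ) + 1) ^ (2 * t) * δ ^ (m * (2 * t + 4)) * M →
      ((N : ℝ) + 1) ^ (2 * t) * (1 + γ) ^ (2 * t + 4) *
        (s / ((N : ℝ) + 1) ^ (2 * t) * δ ^ (m * (2 * t + 4)) * M) ≤ s * M := by
    intro M hM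
    have hM' : 0 ≤ s * M := by
      have h1 : 0 < s / ((N : ℝ) + 1) ^ (2 * t) * δ ^ (m * (2 * t + 4)) := by positivity
      have h2 : 0 ≤ M := by
        by_contra hcon
        push Not at hcon
        nlinarith [mul_neg_of_pos_of_neg h1 hcon]
      positivity
    have h1 : (1 + γ) ^ (2 * t + 4) * δ ^ (m * (2 * t + 4)) ≤ 1 := by
      have h2 : (1 + γ) ^ (2 * t + 4) ≤ ((1 / δ) ^ m) ^ (2 * t + 4) :=
        pow_le_pow_left₀ (by linarith) hγm _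
      calc (1 + γ) ^ (2 * t + 4) * δ ^ (m * (2 * t + 4))
          ≤ ((1 / δ) ^ m) ^ (2 * t + 4) * δ ^ (m * (2 * t + 4)) := by gcongr
        _ = 1 := by
            rw [← pow_mul, ← mul_pow, one_div, inv_mul_cancel₀ hδ.ne', one_pow]
    calc ((N : ℝ) + 1) ^ (2 * t) * (1 + γ) ^ (2 * t + 4) *
        (s / ((N : ℝ) + 1) ^ (2 * t) * δ ^ (m * (2 * t + 4)) * M)
        = (1 + γ) ^ (2 * t + 4) * δ ^ (m * (2 * t + 4)) * (s * M) := by
          field_simp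
      _ ≤ 1 * (s * M) := by gcongr
      _ = s * M := one_mul _
  have hF1 : ∀ n a, FS {∅} a n = 1 := by
    intro n a
    unfold FS wt
    simp
  have hG1 : GG {∅} = 1 := by
    unfold GG wt
    simp
  have hFam0 : Fam δ X 0 {∅} := by
    intro R hR
    rw [Finset.mem_singleton] at hR
    subst hR
    simp
  -- the general statement
  have gen : ∀ (T : Finset ℕ) (M : ℝ) (ψ : ℕ → Finset (Finset ℕ)) (v : ℕ → ℝ),
      (∀ a ∈ B, ψ a = {∅}) → (∀ a ∈ U, 0 ≤ v a ∧ Fam δ X (v a) (ψ a)) →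
      ∑ a ∈ U, v a ≤ 1 / 4 - 2 * θ →
      (∀ (F F' : ℕ → Finset (Finset ℕ)) (u u' : ℕ → ℝ),
      (∀ a ∈ U, 0 ≤ u a ∧ Fam δ X (u a) (F a)) → (∀ a ∈ U, 0 ≤ u' a ∧ Fam δ X (u' a) (F' a)) →
      ∑ a ∈ U, (u a + u' a) ≤ 1 / 2 - 2 * θ →
      ((∀ a ∈ U, F a = F' a) ∨ ∃ a ∈ U, Disjoint (F a) (F' a)) →
      |∑ n ∈ T, rU δ X U n * ((∏ a ∈ U, FS (F a) a n) * ∏ a ∈ U, FS (F' a) a n) -
        (if ∀ a ∈ U, F a = F' a then M * ∏ a ∈ U, GG (F a) else 0)| ≤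
          s / ((N : ℝ) + 1) ^ (2 * t) * δ ^ (m * (2 * t + 4)) * M) →
      |∑ n ∈ T, rU δ X U n * ((∏ a ∈ U, FS (ψ a) a n) * WW B c (xh γ β S n)) ^ 2 -
        M * ((∏ a ∈ U, GG (ψ a)) * ∑ σ ∈ cfg t B, c σ ^ 2 * term (qh γ β S) σ)| ≤ s * M := by
    intro T M ψ v hψ hv hvs H
    have h1 := corr hBU huτ hu hS h0 hd hG hψ hv hθ0 hvs T (rU δ X U) M _ H
    have h2 := moment hBU hUN hG hβτ hβ1 hγ hc hψ T (rU δ X U) M _ h1
    refine h2.trans (herr M ?_)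
    have h3 : (fun _ => none : Fin t → Option ℕ) ∈ cfg t B := by
      unfold Pool.Agent.H410R2.AC.cfg
      rw [Finset.mem_filter, Fintype.mem_piFinset]
      exact ⟨fun τ => by simp, fun τ τ' a h => by simp at h⟩
    exact (abs_nonneg _).trans (h1 _ h3 _ h3)
  have hv0 : ∑ a ∈ U, (fun _ : ℕ => (0 : ℝ)) a ≤ 1 / 4 - 2 * θ := by
    simp only [Finset.sum_const_zero]
    linarith
  refine ⟨?_, fun a₀ ha₀ => ⟨?_, fun a₁ ha₁ => ?_⟩⟩
  · have h1 := gen (SI X b) (Om δ X U.card) (fun _ => {∅}) (fun _ => 0) (fun _ _ => rfl)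
      (fun _ _ => ⟨le_rfl, hFam0⟩) hv0 (fun F F' u u' a1 a2 a3 a4 => (key F F' u u' a1 a2 a3 a4).1)
    simp only [hF1, hG1, Finset.prod_const_one, one_mul] at h1
    exact h1
  · have h1 := gen (SP X b a₀) (OmP δ X U.card) (fun _ => {∅}) (fun _ => 0) (fun _ _ => rfl)
      (fun _ _ => ⟨le_rfl, hFam0⟩) hv0
      (fun F F' u u' a1 a2 a3 a4 => (key F F' u u' a1 a2 a3 a4).2 a₀ ha₀)
    simp only [hF1, hG1, Finset.prod_const_one, one_mul] at h1
    exact h1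
  · have ha₁U : a₁ ∈ U := (Finset.mem_sdiff.1 ha₁).1
    have ha₁B : a₁ ∉ B := (Finset.mem_sdiff.1 ha₁).2
    have hX0 : (0 : ℝ) < X := by exact_mod_cast hX1
    have hFam1 : Fam δ X (1 / 4 - 2 * θ) (S1 δ θ X) := by
      intro R hR
      unfold S1 at hR
      rw [Finset.mem_filter, Finset.mem_powerset] at hR
      refine ⟨hR.1, ?_⟩
      have hpos : 0 < ∏ p ∈ R, (p : ℝ) := by
        refine Finset.prod_pos fun p hp => ?_
        have h2 := hR.1 hp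
        unfold P2 at h2
        rw [Finset.mem_filter] at h2
        exact_mod_cast h2.2.1.pos
      have h3 := Real.log_le_log hpos hR.2
      rwa [Real.log_rpow hX0] at h3
    have h1 := gen (SP X b a₀) (OmP δ X U.card) (fun a => if a = a₁ then S1 δ θ X else {∅})
      (fun a => if a = a₁ then 1 / 4 - 2 * θ else 0)
      (fun a ha => by
        rw [if_neg]
        rintro rfl
        exact ha₁B ha)
      (fun a _ => by
        split_ifs
        · exact ⟨by linarith, hFam1⟩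
        · exact ⟨le_rfl, hFam0⟩)
      (by
        rw [Finset.sum_ite_eq' U a₁, if_pos ha₁U])
      (fun F F' u u' a1 a2 a3 a4 => (key F F' u u' a1 a2 a3 a4).2 a₀ ha₀)
    have e1 : ∀ n, ∏ a ∈ U, FS (if a = a₁ then S1 δ θ X else {∅}) a n = FS (S1 δ θ X) a₁ n := by
      intro n
      rw [Finset.prod_eq_single_of_mem a₁ ha₁U]
      · rw [if_pos rfl]
      · intro a _ hne
        rw [if_neg hne, hF1]
    have e2 : ∏ a ∈ U, GG (if a = a₁ then S1 δ θ X else {∅}) = GG (S1 δ θ X) := by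
      rw [Finset.prod_eq_single_of_mem a₁ ha₁U]
      · rw [if_pos rfl]
      · intro a _ hne
        rw [if_neg hne, hG1]
    simp only [e1, e2] at h1
    exact h1

end Pool.W335.HR
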